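import Pool.Agent.K4H62.HF.TMain

/-!
# The Lang-Vojta conjecture for affine curves is inherited by fibrations in hyperbolic affine curves

`k` is an algebraically closed field of characteristic zero. Let `X → Y` be a dominant morphism of
varieties of arbitrary dimensions such that the geometric generic fibre (or a component of it) is an
affine curve of log general type: of any genus `g`, with `s ≥ 1` punctures, and `2 g - 2 + s > 0`.
Nothing is assumed about the other fibres. They may be reducible, nonreduced, rational, complete or
empty, and the punctures are multisections which may meet each other and may be ramified over `Y`.

* Then there is a proper closed subset `Z` of `X` such that for every morphism `f : C → X` from a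
  smooth affine curve `C` of genus `g` with `s` points at infinity, with image not in `Z`,
  `deg f ≤ A (max (2 g - 2 + s, 0) + deg (C → Y))`, where `A` does not depend on `C` and `f`.
  The restriction of `X → Y` to `C` is a family of curves over `C` whose discriminant and height are
  not bounded; so this is stronger than such an inequality over each fixed base curve.
* So, if the conjecture of Lang and Vojta (with a linear function `β`) holds for `Y`, it holds for `X`.
  Here `Y` is affine, or `Y` is a projective variety for which there is a bound
  `deg f ≤ A max (2 g - 2, 0)` for the maps from smooth projective curves to `Y`, outside of a proper
  closed subset, as in the theorems of Demailly and Kobayashi which are quoted in the problem, and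
  `X` is affine.
* So it holds for all towers of such fibrations and of arbitrary dominant morphisms which are finite
  over the generic point, which start with a point, or with such a fibration over a smooth projective
  curve of genus at least two; for example, for all affine surfaces which have a dominant morphism,
  with hyperbolic generic fibre, to a curve `Y` of log general type, affine or projective.

## The definitions

See `Pool/Agent/K4H62/HF/Defs.lean` and `Pool/Agent/K4H62/HF/TDefs.lean`.

`Fibration k B0 B`: there is a field `M` with `HyperbolicFibres B0 B Ω`, and `B0` and `B` are finitely
generated `k`-algebras. `HyperbolicFibres B0 B Ω`: `Spec B → Spec B0` is dominant, `Ω` is an algebraic closure of the field of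
functions of `Spec B0`, `M` is a field of functions of one variable over `Ω` which contains `B`, the
places of `M` where the functions in `B` are regular form an affine curve `V` which is a finite etale
covering of the component `U` of the geometric generic fibre with the function field `Ω (B)`
(`Etale`), and the number of the punctures of `V` is larger than `2 deg y` for some nonconstant
function `y` on the completion of `V`. Every affine curve `U` of log general type has such a finite
etale covering (this is not formalized): if `g = 0` then `V = U`, `deg y = 1`, `s ≥ 3`; if `g > 0`
then let `V` be the preimage of `U` under the multiplication by `n` on the Jacobian `J` of the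
completion of `U`. It has `s n ^ (2 g)` punctures, and the very ample divisor `3 Θ` of `J` has the
degree `3 g n ^ (2 g - 2)` on `V`, so that there is a function `y` of at most this degree. So
`n ^ 2 > 6 g` suffices.

`hgt k f` is the degree of a function `f` on the curve with function field `E`; `canDeg k E` is
`2 g - 2`. `RelativeBound k B0 B`: the relative height inequality; `LangVojta k R`: the linear bound for the affine variety `Spec R`; `Demailly k B0`: the
linear bound for the maps from projective curves to a projective variety `Y` with the open subset
`Spec B0`; `Chart k R B0 B`: `Spec B` is the preimage of `Spec B0 ⊂ Y` in `Spec R`; `Tower k R`: the
towers.

## The proof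

(a) Roth's theorem (the second main theorem) for a function and `q` moving targets in characteristic
zero, with the constants linear in the genus and the heights of the targets and uniform otherwise,
by Wronskians of the products of the `y ^ i` and of the elements of a space of small growth (Osgood,
Steinmetz, Wang). (b) Riemann-Roch on the covering `V` of the generic fibre gives functions `u`,
`u y ^ n'`, regular on `V`, whose poles at the punctures are bounded by the `n`-th power of
`∏ (y - v i)`, where the `v i` are the values of `y` at the punctures, and with
`n' / n > 2 + 1 / s`, since there are more than `2 deg y` punctures. (c) A curve `C → X` is lifted to
`V`, after a specialization of the constants in `Ω` and of the covering: this gives coverings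
`C' → C` of bounded degree, with ramification over the points of `C` at infinity and over at most
`A deg (C → Y)` further points. (d) The functions `u` and `u y ^ n'` on `C'` are compared with the
proximity functions of the `y - v i`, at all points.
-/

set_option autoImplicit false
set_option linter.overlappingInstances false

open FF Pool.Agent.W603.LV Pool.Agent.K4H62.HF

namespace Pool.Agent.K4H62.Old.HyperbolicFibrations

theorem result {k : Type} [Field k] [IsAlgClosed k] [CharZero k] :
    -- (1) the relative height inequality, for maps from curves to a variety `X` which is fibred over
    -- a variety `Y`, where `Spec B0` is an affine open subset of `Y` and `Spec B` is its preimage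
    (∀ (B0 B : Type) [CommRing B0] [CommRing B] [Algebra k B0] [Algebra k B] [Algebra B0 B],
      Fibration k B0 B → RelativeBound k B0 B) ∧
    -- (2) the linear bound for the affine variety `Spec B0` implies the one for `Spec B`
    (∀ (B0 B : Type) [CommRing B0] [CommRing B] [Algebra k B0] [Algebra k B] [Algebra B0 B],
      Fibration k B0 B → LangVojta k B0 → LangVojta k B) ∧
    -- (3) the linear bound for a projective variety with the affine open subset `Spec B0` implies the
    -- one for the affine variety `Spec R`
    (∀ (R B0 B : Type) [CommRing R] [CommRing B0] [CommRing B] [Algebra k R] [Algebra k B0]
      [Algebra k B] [Algebra R B] [Algebra B0 B] [IsScalarTower k R B], Fibration k B0 B →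
      Chart k R B0 B → Demailly k B0 → LangVojta k R) ∧
    -- (4) the linear bound for all towers
    ∀ (R : Type) [CommRing R] [Algebra k R], Tower k R → LangVojta k R :=
  ⟨fun _ _ _ _ _ _ _ h => relativeBound h, fun _ _ _ _ _ _ _ h h0 => affine_base h h0,
    fun _ _ _ _ _ _ _ _ _ _ _ _ h hc h0 => projective_base h hc h0, fun _ _ _ h => tower h⟩

end Pool.Agent.K4H62.Old.HyperbolicFibrations
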